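import Pool.Agent.H664.QK.Stm

/-! # QK, job PK (helper287, for helper664): strong countable subfields -/

set_option autoImplicit false
set_option linter.all false

namespace Pool.Agent.H287.QK

open MvPolynomial Cardinal
open Pool.Agent.H664.QK

/-! ### linear algebra over the integers -/

theorem lin {V : Type} [AddCommGroup V] {r : ℕ} (w : Fin r → V) : ∃ B : Finset (Fin r),
    (∀ f : Fin r → ℤ, ∑ i ∈ B, f i • w i = 0 → ∀ i ∈ B, f i = 0) ∧
    ∃ M : {i // i ∉ B} → Fin r → ℤ, (∀ j, ∑ i, M j i • w i = 0) ∧ (∀ j, M j j.1 ≠ 0) ∧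
      ∀ j (i : Fin r), i ∉ B → i ≠ j.1 → M j i = 0 := by
  classical
  let P : Finset (Fin r) → Prop := fun B =>
    ∀ f : Fin r → ℤ, ∑ i ∈ B, f i • w i = 0 → ∀ i ∈ B, f i = 0
  have hne : (Finset.univ.filter P).Nonempty :=
    ⟨∅, Finset.mem_filter.2 ⟨Finset.mem_univ _, fun f _ i hi => absurd hi (Finset.notMem_empty i)⟩⟩
  obtain ⟨B, hB, hmax⟩ := Finset.exists_max_image _ Finset.card hne
  have hPB : P B := (Finset.mem_filter.1 hB).2
  refine ⟨B, hPB, ?_⟩
  have key : ∀ j : {i // i ∉ B}, ∃ f : Fin r → ℤ,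
      ∑ i ∈ insert j.1 B, f i • w i = 0 ∧ f j.1 ≠ 0 := by
    intro j
    have h1 : ¬ P (insert j.1 B) := by
      intro h
      have h2 := hmax _ (Finset.mem_filter.2 ⟨Finset.mem_univ _, h⟩)
      rw [Finset.card_insert_of_notMem j.2] at h2
      omega
    obtain ⟨f, hf⟩ := not_forall.1 h1
    obtain ⟨hf1, hf2⟩ := Classical.not_imp.1 hf
    refine ⟨f, hf1, fun h0 => hf2 ?_⟩
    intro i hi
    rw [Finset.sum_insert j.2, h0, zero_smul, zero_add] at hf1
    rcases Finset.mem_insert.1 hi with h | h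
    · rw [h]; exact h0
    · exact hPB f hf1 i h
  choose f hf1 hf2 using key
  refine ⟨fun j i => if i ∈ insert j.1 B then f j i else 0, ?_, ?_, ?_⟩
  · intro j
    rw [← hf1 j, ← Finset.sum_subset (Finset.subset_univ (insert j.1 B))]
    · refine Finset.sum_congr rfl fun i hi => ?_
      beta_reduce
      rw [if_pos hi]
    · intro i _ hi
      beta_reduce
      rw [if_neg hi, zero_smul]
  · intro j
    simp only [Finset.mem_insert_self, if_true]
    exact hf2 j
  · intro j i hi hij
    simp only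
    rw [if_neg]
    intro h
    rcases Finset.mem_insert.1 h with h | h
    · exact hij h
    · exact hi h

/-! ### derivations -/

section der

variable {K F : Type} [Field K] [Field F] [Algebra K F] (D : Derivation K F F)

theorem D_zpow {y x : F} (hy : y ≠ 0) (h : D y = y * D x) (n : ℤ) :
    D (y ^ n) = y ^ n * (n • D x) := by
  rw [D.leibniz_zpow, h]
  have e : y ^ n = y ^ (n - 1) * y := by
    rw [← zpow_add_one₀ hy]; congr 1; ring
  rw [e]
  simp only [smul_eq_mul, zsmul_eq_mul]
  ring

theorem D_prod {ι : Type} (s : Finset ι) (g L : ι → F) (h : ∀ i, D (g i) = g i * L i) :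
    D (∏ i ∈ s, g i) = (∏ i ∈ s, g i) * ∑ i ∈ s, L i := by
  classical
  induction s using Finset.induction_on with
  | empty => simp
  | insert a s ha ih =>
    rw [Finset.prod_insert ha, Finset.sum_insert ha, D.leibniz, ih, h]
    simp only [smul_eq_mul]
    ring

/-- the field of constants -/
def cst : IntermediateField K F where
  carrier := {f | D f = 0}
  mul_mem' := by
    intro a b ha hb
    simp only [Set.mem_setOf_eq] at *
    rw [D.leibniz, ha, hb]; simp
  add_mem' := by
    intro a b ha hb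
    simp only [Set.mem_setOf_eq] at *
    rw [map_add, ha, hb, add_zero]
  algebraMap_mem' := by
    intro k
    simp only [Set.mem_setOf_eq]
    exact D.map_algebraMap k
  inv_mem' := by
    intro a ha
    simp only [Set.mem_setOf_eq] at *
    rw [D.leibniz_inv, ha, smul_zero]

theorem mem_cst {f : F} : f ∈ cst D ↔ D f = 0 := Iff.rfl

end der

/-! ### transcendence degrees -/

theorem tr_of_le (K : Type) {Ω : Type} [Field K] [Field Ω] [Algebra K Ω] {ι : Type} [Finite ι]
    (w : ι → Ω) (d : ℕ)
    (h : (d : Cardinal) ≤ Algebra.trdeg K (IntermediateField.adjoin K (Set.range w))) :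
    Tr K w d := by
  classical
  set F := IntermediateField.adjoin K (Set.range w) with hF
  let z : ι → F := fun i => ⟨w i, IntermediateField.subset_adjoin K _ ⟨i, rfl⟩⟩
  have hz : ∀ i, (z i : Ω) = w i := fun _ => rfl
  haveI : Algebra.IsAlgebraic (Algebra.adjoin K (Set.range z)) F := by
    refine ⟨?_⟩
    rintro ⟨a, ha⟩
    induction ha using IntermediateField.adjoin_induction with
    | mem x hx =>
      obtain ⟨i, rfl⟩ := hx
      exact isAlgebraic_algebraMap
        (⟨z i, Algebra.subset_adjoin ⟨i, rfl⟩⟩ : Algebra.adjoin K (Set.range z))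
    | algebraMap x =>
      exact isAlgebraic_algebraMap
        (⟨algebraMap K F x, Subalgebra.algebraMap_mem _ x⟩ : Algebra.adjoin K (Set.range z))
    | add x y hx hy h1 h2 => exact h1.add h2
    | inv x hx h1 => exact h1.inv
    | mul x y hx hy h1 h2 => exact h1.mul h2
  obtain ⟨T, hT, hTb⟩ := exists_isTranscendenceBasis_subset (R := K) (A := F) (Set.range z)
  rw [← hTb.cardinalMk_eq_trdeg] at h
  have hfin : T.Finite := (Set.finite_range z).subset hT
  haveI := hfin.to_subtype
  obtain ⟨T', hT'⟩ : ∃ T' : Finset F, (T' : Set F) ⊆ T ∧ T'.card = d := by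
    have h1 : d ≤ hfin.toFinset.card := by
      have h2 : #T = (hfin.toFinset.card : Cardinal) := by
        rw [← Set.ncard_eq_toFinset_card T hfin, Set.cast_ncard hfin]
      rw [h2] at h
      exact_mod_cast h
    obtain ⟨T', h3, h4⟩ := Finset.exists_subset_card_eq h1
    exact ⟨T', fun x hx => hfin.mem_toFinset.1 (h3 hx), h4⟩
  choose g hg using fun x : T' => hT (hT'.1 x.2)
  have hginj : Function.Injective g := by
    intro a b hab
    apply Subtype.ext
    rw [← hg a, ← hg b, hab]
  refine ⟨Finset.univ.map ⟨g, hginj⟩, by simp [hT'.2], ?_⟩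
  have hmem : ∀ j : (Finset.univ.map ⟨g, hginj⟩ : Finset ι), z j ∈ T := by
    rintro ⟨j, hj⟩
    obtain ⟨a, -, ha⟩ := Finset.mem_map.1 hj
    have ha' : g a = j := ha
    show z j ∈ T
    rw [← ha', hg]
    exact hT'.1 a.2
  have hinj : Function.Injective
      (fun j : (Finset.univ.map ⟨g, hginj⟩ : Finset ι) => (⟨z j, hmem j⟩ : T)) := by
    rintro ⟨j, hj⟩ ⟨j', hj'⟩ hjj
    obtain ⟨a, -, ha⟩ := Finset.mem_map.1 hj
    obtain ⟨a', -, ha'⟩ := Finset.mem_map.1 hj'
    have h1 : g a = j := ha
    have h2 : g a' = j' := ha'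
    have h3 : z j = z j' := congrArg Subtype.val hjj
    rw [← h1, ← h2, hg, hg] at h3
    have h4 : a = a' := Subtype.ext h3
    apply Subtype.ext
    show j = j'
    rw [← h1, ← h2, h4]
  have h5 := (hTb.1.comp _ hinj).map' (f := F.val) F.val.injective
  exact h5


theorem combine {K F : Type} [Field K] [Field F] [Algebra K F] (C : IntermediateField K F)
    (a b : ℕ) (ha : (a : Cardinal) ≤ Algebra.trdeg K C) (hb : (b : Cardinal) ≤ Algebra.trdeg C F) :
    ((a + b : ℕ) : Cardinal) ≤ Algebra.trdeg K F := by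
  rw [← trdeg_add_eq K C (A := F)]
  push_cast
  exact add_le_add ha hb

/-! ### Ax's theorem over the constants -/

section ax

variable {K : Type} [Field K] {F : Type} [Field F] [Algebra K F] {Fs : Subfield ℂ}

/-- transport of a derivation -/
noncomputable def tD (ρ : F ≃+* Fs) (D : Derivation K F F) : Derivation ℚ Fs Fs :=
  Derivation.mk' (AddMonoidHom.toRatLinearMap
    (((ρ : F →+* Fs) : F →+ Fs).comp ((D : F →ₗ[K] F).toAddMonoidHom.comp
      ((ρ.symm : Fs →+* F) : Fs →+ F)))) (by
    intro a b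
    show ρ (D (ρ.symm (a * b))) = a • ρ (D (ρ.symm b)) + b • ρ (D (ρ.symm a))
    rw [map_mul, D.leibniz, map_add, smul_eq_mul, smul_eq_mul, map_mul, map_mul,
      RingEquiv.apply_symm_apply, RingEquiv.apply_symm_apply]
    rfl)

theorem tD_apply (ρ : F ≃+* Fs) (D : Derivation K F F) (a : Fs) :
    tD ρ D a = ρ (D (ρ.symm a)) := rfl

theorem tD_apply' (ρ : F ≃+* Fs) (D : Derivation K F F) (a : F) :
    tD ρ D (ρ a) = ρ (D a) := by
  rw [tD_apply, RingEquiv.symm_apply_apply]

theorem ratInd [CharZero F] {r : ℕ} (B : Finset (Fin r)) (w : Fin r → F)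
    (hB : ∀ f : Fin r → ℤ, ∑ i ∈ B, f i • w i = 0 → ∀ i ∈ B, f i = 0)
    {n : ℕ} (e : Fin n ≃ B) (q : Fin n → ℚ) (h : ∑ i, (q i : F) * w (e i) = 0) : q = 0 := by
  classical
  obtain ⟨b, hb⟩ := IsLocalization.exist_integer_multiples_of_finset (nonZeroDivisors ℤ)
    (Finset.univ.image q)
  have hb0 : ((b : ℤ) : ℚ) ≠ 0 := by
    exact_mod_cast nonZeroDivisors.coe_ne_zero b
  have hk : ∀ i, ∃ k : ℤ, (k : ℚ) = (b : ℤ) * q i := by
    intro i
    obtain ⟨k, hk⟩ := hb (q i) (Finset.mem_image_of_mem q (Finset.mem_univ i))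
    refine ⟨k, ?_⟩
    have h1 : (algebraMap ℤ ℚ) k = (k : ℚ) := by simp
    rw [← h1, hk, Algebra.smul_def]
    simp
  choose k hk using hk
  have h1 := hB (fun i => if h : i ∈ B then k (e.symm ⟨i, h⟩) else 0) (by
    rw [← Finset.sum_coe_sort B (fun i => (if h : i ∈ B then k (e.symm ⟨i, h⟩) else 0) • w i),
      ← e.sum_comp]
    have h2 : ∀ i : Fin n, (if h : ((e i : B) : Fin r) ∈ B then k (e.symm ⟨(e i : B), h⟩) else 0) •
        w (e i) = ((b : ℤ) : F) * ((q i : F) * w (e i)) := by
      intro i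
      rw [dif_pos (e i).2]
      have h3 : e.symm ⟨((e i : B) : Fin r), (e i).2⟩ = i := e.symm_apply_apply i
      rw [h3, zsmul_eq_mul, ← mul_assoc]
      congr 1
      have h4 : (((k i : ℚ)) : F) = (((b : ℤ) * q i : ℚ) : F) := by rw [hk i]
      push_cast at h4
      exact h4
    rw [Finset.sum_congr rfl fun i _ => h2 i, ← Finset.mul_sum, h, mul_zero])
  funext i
  have h5 := h1 (e i) (e i).2
  simp only [Finset.coe_mem, dif_pos] at h5
  have h3 : e.symm ⟨((e i : B) : Fin r), (e i).2⟩ = i := e.symm_apply_apply i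
  rw [h3] at h5
  have h6 := hk i
  rw [h5, Int.cast_zero] at h6
  rcases mul_eq_zero.1 h6.symm with h7 | h7
  · exact absurd h7 hb0
  · exact h7

theorem trdeg_cst (h3 : S_axF) (ρ : F ≃+* Fs) [CharZero F] (D : Derivation K F F) {r : ℕ}
    (B : Finset (Fin r)) (x y : Fin r → F) (hBne : B.Nonempty) (hy : ∀ i, y i ≠ 0)
    (hD : ∀ i, D (y i) = y i * D (x i))
    (hB : ∀ f : Fin r → ℤ, ∑ i ∈ B, f i • D (x i) = 0 → ∀ i ∈ B, f i = 0) :
    ((B.card + 1 : ℕ) : Cardinal) ≤ Algebra.trdeg (cst D) F := by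
  classical
  obtain ⟨V, hV⟩ := exists_isTranscendenceBasis (cst D) F
  rw [← hV.cardinalMk_eq_trdeg]
  by_cases hfin : V.Finite
  · haveI := hfin.to_subtype
    let e : Fin (Nat.card V) ≃ V := (Finite.equivFin V).symm
    let eB : Fin B.card ≃ B := B.equivFin.symm
    have hcard : #V = (Nat.card V : Cardinal) := (Nat.cast_card).symm
    have key := h3 Fs (tD ρ D) B.card (Nat.card V) (fun i => ρ (x (eB i))) (fun i => ρ (y (eB i)))
      (fun j => ρ (e j)) (Finset.card_pos.2 hBne) ?_ ?_ ?_ ?_
    · show ((B.card + 1 : ℕ) : Cardinal) ≤ #V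
      rw [hcard]
      exact_mod_cast key
    · intro i h0
      exact hy _ ((map_eq_zero_iff ρ ρ.injective).1 h0)
    · intro i
      rw [tD_apply', tD_apply', hD, map_mul]
    · intro q hq
      apply ratInd B (fun i => D (x i)) hB eB q
      have h4 := congrArg ρ.symm hq
      rw [map_sum, map_zero] at h4
      rw [← h4]
      refine Finset.sum_congr rfl fun i _ => ?_
      rw [map_mul, tD_apply', RingEquiv.symm_apply_apply, map_ratCast]
    · intro f
      have halg : IsAlgebraic (Algebra.adjoin (cst D) (Set.range ((↑) : V → F))) (ρ.symm f) :=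
        hV.isAlgebraic.isAlgebraic _
      have hmem : ∀ a : Algebra.adjoin (cst D) (Set.range ((↑) : V → F)), ρ (a : F) ∈
          Subfield.closure ({c : Fs | tD ρ D c = 0} ∪ Set.range (fun j => ρ (e j : F))) := by
        rintro ⟨a, ha⟩
        show ρ a ∈ _
        induction ha using Algebra.adjoin_induction with
        | mem x hx =>
          obtain ⟨v, rfl⟩ := hx
          apply Subfield.subset_closure
          right
          exact ⟨e.symm v, congrArg ρ (congrArg Subtype.val (e.apply_symm_apply v))⟩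
        | algebraMap c =>
          apply Subfield.subset_closure
          left
          show tD ρ D (ρ (c : F)) = 0
          rw [tD_apply', (mem_cst D).1 c.2, map_zero]
        | add x y _ _ h1 h2 => rw [map_add]; exact add_mem h1 h2
        | mul x y _ _ h1 h2 => rw [map_mul]; exact mul_mem h1 h2
      let φ : Algebra.adjoin (cst D) (Set.range ((↑) : V → F)) →+*
          Subfield.closure ({c : Fs | tD ρ D c = 0} ∪ Set.range (fun j => ρ (e j : F))) :=
        (((ρ : F →+* Fs).comp
          (Algebra.adjoin (cst D) (Set.range ((↑) : V → F))).val.toRingHom)).codRestrict _ hmem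
      have hφ : Function.Injective φ := by
        intro a b hab
        have h5 : ρ (a : F) = ρ (b : F) := congrArg Subtype.val hab
        exact Subtype.ext (ρ.injective h5)
      have h6 := halg.ringHom_of_comp_eq φ (ρ : F →+* Fs) hφ (by
        ext a
        rfl)
      have h7 : (ρ : F →+* Fs) (ρ.symm f) = f := ρ.apply_symm_apply f
      rw [h7] at h6
      exact h6
  · haveI : Infinite V := Set.infinite_coe_iff.2 hfin
    exact (Cardinal.nat_lt_aleph0 _).le.trans (Cardinal.infinite_iff.1 this)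

end ax


/-- constants which are exponential points -/
theorem trdeg_low {K : Type} [Field K] {Ω : Type} [Field Ω] [Algebra K Ω]
    (F : IntermediateField K Ω) (C : IntermediateField K F) {ι : Type} (w : ι → C) (z : ι → Ω)
    (hz : ∀ i, ((w i : F) : Ω) = z i) (d : ℕ) (h : Tr K z d) :
    (d : Cardinal) ≤ Algebra.trdeg K C := by
  obtain ⟨J, hJ, hJi⟩ := h
  have h1 : AlgebraicIndependent K (fun j : J => w j) := by
    apply AlgebraicIndependent.of_comp (F.val.comp C.val)
    have e : (⇑(F.val.comp C.val) ∘ fun j : J => w j) = fun j : J => z j := by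
      funext j
      exact hz j
    rw [e]
    exact hJi
  have h2 := h1.cardinalMk_le_trdeg
  rw [Cardinal.mk_coe_finset, hJ] at h2
  exact h2

theorem ind_of {K : Subfield ℂ} {r q : ℕ} {t : Fin r → ℂ} (hI : Ind K t) {B : Finset (Fin r)}
    (e : Fin q ≃ {i // i ∉ B}) (M : {i // i ∉ B} → Fin r → ℤ) (hM2 : ∀ j, M j j.1 ≠ 0)
    (hM3 : ∀ j (i : Fin r), i ∉ B → i ≠ j.1 → M j i = 0) :
    Ind K (fun j => ∑ i, (M (e j) i : ℂ) * t i) := by
  intro m hm
  have h1 := hI (fun i => ∑ j, m j * M (e j) i) (by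
    have e1 : ∑ i, ((∑ j, m j * M (e j) i : ℤ) : ℂ) * t i =
        ∑ j, (m j : ℂ) * ∑ i, (M (e j) i : ℂ) * t i := by
      push_cast
      simp_rw [Finset.sum_mul, Finset.mul_sum]
      rw [Finset.sum_comm]
      refine Finset.sum_congr rfl fun j _ => Finset.sum_congr rfl fun i _ => ?_
      ring
    rw [e1]
    exact hm)
  funext j0
  have h2 : ∑ j, m j * M (e j) (e j0).1 = 0 := congrFun h1 (e j0).1
  rw [Finset.sum_eq_single j0] at h2
  · exact (mul_eq_zero.1 h2).resolve_right (hM2 _)
  · intro j _ hj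
    rw [hM3 (e j) (e j0).1 (e j0).2 (fun h => hj (e.injective (Subtype.ext h)).symm), mul_zero]
  · intro h
    exact absurd (Finset.mem_univ _) h

/-- the field as a subfield of the complex numbers -/
def rho {K : Subfield ℂ} (F : IntermediateField K ℂ) : F ≃+* F.toSubfield where
  toFun a := ⟨a.1, a.2⟩
  invFun a := ⟨a.1, a.2⟩
  left_inv _ := rfl
  right_inv _ := rfl
  map_mul' _ _ := rfl
  map_add' _ _ := rfl

theorem case2 (h3 : S_axF) {K : Subfield ℂ} {r : ℕ}
    (ih : ∀ q < r, ∀ u : Fin q → ℂ, 0 < q → Ind K u → Tr K (ex u) (q + 1)) (t : Fin r → ℂ)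
    (hI : Ind K t) (F : IntermediateField K ℂ) (D : Derivation K F F) (x y : Fin r → F)
    (hxy : ∀ i, (x i : ℂ) = t i ∧ (y i : ℂ) = Complex.exp (t i)) (hD : ∀ i, D (y i) = y i * D (x i))
    (i0 : Fin r) (hi0 : D (x i0) ≠ 0) : ((r + 1 : ℕ) : Cardinal) ≤ Algebra.trdeg K F := by
  classical
  obtain ⟨B, hB, M, hM1, hM2, hM3⟩ := lin (fun i => D (x i))
  have hy : ∀ i, y i ≠ 0 := by
    intro i h0
    have h4 := (hxy i).2
    rw [h0] at h4
    exact Complex.exp_ne_zero (t i) h4.symm
  haveI : CharZero F := charZero_of_injective_algebraMap (algebraMap ℚ F).injective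
  have hBne : B.Nonempty := by
    rw [Finset.nonempty_iff_ne_empty]
    intro hBe
    have hn : ∀ i, i ∉ B := fun i => by rw [hBe]; exact Finset.notMem_empty i
    have h4 := hM1 ⟨i0, hn i0⟩
    rw [Finset.sum_eq_single i0] at h4
    · rw [zsmul_eq_mul] at h4
      rcases mul_eq_zero.1 h4 with h5 | h5
      · exact hM2 ⟨i0, hn i0⟩ (by exact_mod_cast h5)
      · exact hi0 h5
    · intro i _ hi
      rw [hM3 ⟨i0, hn i0⟩ i (hn i) hi, zero_smul]
    · intro h
      exact absurd (Finset.mem_univ _) h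
  have hb := trdeg_cst h3 (rho F) D B x y hBne hy hD hB
  obtain ⟨q, hq⟩ : ∃ q, q = Fintype.card {i // i ∉ B} := ⟨_, rfl⟩
  have hqr : q + B.card = r := by
    rw [hq, Fintype.card_subtype_compl, Fintype.card_coe, Fintype.card_fin]
    have := Finset.card_le_univ B
    rw [Fintype.card_fin] at this
    omega
  have hBpos := Finset.card_pos.2 hBne
  have ha : ((q : ℕ) : Cardinal) ≤ Algebra.trdeg K (cst D) := by
    rcases Nat.eq_zero_or_pos q with h0 | hpos
    · rw [h0, Nat.cast_zero]
      exact zero_le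
    · let e : Fin q ≃ {i // i ∉ B} := (Fintype.equivFinOfCardEq hq.symm).symm
      have hu := ih q (by omega) _ hpos (ind_of hI e M hM2 hM3)
      -- the elements of `F`
      let X : Fin q → F := fun j => ∑ i, (M (e j) i : F) * x i
      let Y : Fin q → F := fun j => ∏ i, y i ^ (M (e j) i)
      have hX : ∀ j, D (X j) = 0 := by
        intro j
        have h5 := hM1 (e j)
        rw [← h5]
        show D (∑ i, (M (e j) i : F) * x i) = _
        rw [map_sum]
        refine Finset.sum_congr rfl fun i _ => ?_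
        rw [← zsmul_eq_mul, map_zsmul]
      have hY : ∀ j, D (Y j) = 0 := by
        intro j
        show D (∏ i, y i ^ (M (e j) i)) = 0
        rw [D_prod D Finset.univ (fun i => y i ^ (M (e j) i)) (fun i => (M (e j) i) • D (x i))
          (fun i => D_zpow D (hy i) (hD i) _), hM1 (e j), mul_zero]
      have hXc : ∀ j, ((X j : F) : ℂ) = ∑ i, (M (e j) i : ℂ) * t i := by
        intro j
        show F.val (∑ i, (M (e j) i : F) * x i) = _
        rw [map_sum]
        refine Finset.sum_congr rfl fun i _ => ?_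
        rw [map_mul, map_intCast]
        show (M (e j) i : ℂ) * (x i : ℂ) = _
        rw [(hxy i).1]
      have hYc : ∀ j, ((Y j : F) : ℂ) = Complex.exp (∑ i, (M (e j) i : ℂ) * t i) := by
        intro j
        show F.val (∏ i, y i ^ (M (e j) i)) = _
        rw [map_prod, Complex.exp_sum]
        refine Finset.prod_congr rfl fun i _ => ?_
        rw [map_zpow₀, Complex.exp_int_mul]
        show (y i : ℂ) ^ _ = _
        rw [(hxy i).2]
      let w : Fin q ⊕ Fin q → cst D := Sum.elim (fun j => ⟨X j, hX j⟩) (fun j => ⟨Y j, hY j⟩)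
      have hw := trdeg_low F (cst D) w (ex fun j => ∑ i, (M (e j) i : ℂ) * t i) (by
        rintro (j | j)
        · exact hXc j
        · exact hYc j) (q + 1) hu
      refine le_trans ?_ hw
      exact_mod_cast Nat.le_succ q
  have hfin := combine (cst D) q (B.card + 1) ha hb
  have e1 : q + (B.card + 1) = r + 1 := by omega
  rw [e1] at hfin
  exact hfin

theorem pk (h1 : S_kpr) (h2 : S_drv) (h3 : S_axF) : S_pk := by
  classical
  intro K hK r
  induction r using Nat.strong_induction_on with
  | _ r ih =>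
  intro t hr hI
  rcases h2 K r t with ⟨G, hG, hdet⟩ | ⟨D, x, y, hxy, hD, i0, hi0⟩
  · exfalso
    have h4 := hK r G t hG hdet ⟨0, hr⟩
    have h5 := hI (Pi.single ⟨0, hr⟩ 1) (by
      have e : ∑ j, ((Pi.single (⟨0, hr⟩ : Fin r) (1 : ℤ) : Fin r → ℤ) j : ℂ) * t j =
          t ⟨0, hr⟩ := by
        rw [Finset.sum_eq_single (⟨0, hr⟩ : Fin r)]
        · rw [Pi.single_eq_same]; push_cast; ring
        · intro j _ hj
          rw [Pi.single_eq_of_ne hj]; push_cast; ring
        · intro h
          exact absurd (Finset.mem_univ _) h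
      rw [e]
      exact h4)
    have h6 := congrFun h5 ⟨0, hr⟩
    rw [Pi.single_eq_same] at h6
    exact one_ne_zero h6
  · exact tr_of_le K (ex t) (r + 1) (case2 h3 (fun q hq u h0 hu => ih q hq u h0 hu) t hI _ D x y
      hxy hD i0 hi0)

end Pool.Agent.H287.QK
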